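import Pool.Agent.R537.LR.Asm
import Pool.Agent.R265.LREXA
import Pool.Agent.R193.LRCAU
import Pool.Agent.R12.LRKST
import Pool.Agent.R569.LR.BL0
import Pool.Agent.R818.LRLR
import Pool.Agent.R567.LRSUM
import Pool.Agent.R92.LRGC
import Pool.Agent.R441.LRPB
import Pool.Agent.R91.LRPC
import Pool.Agent.R619.LR.P0
import Pool.Agent.R961.LRC0
import Pool.Agent.R928.LRMEM
import Pool.Agent.R437.LRHAD
import Pool.Agent.R86.LRSRC1
import Pool.Agent.R634.LR.SRC2
import Pool.Agent.R711.LRFF
import Pool.Agent.Y507.LRSLP
import Pool.Agent.R392.LRREP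
import Pool.Agent.R776.LRYESC
import Pool.Agent.R531.LR.LRYES
import Pool.Agent.R395.LRNOA
import Pool.Agent.R777.LRNOB1
import Pool.Agent.R153.LRNOB2
import Pool.Agent.R237.LRNCD
import Pool.Agent.R6.LRNOE
import Pool.Agent.R737.LRNOF
import Pool.Agent.R827.LRNOG
import Pool.Agent.R657.LRP1
import Pool.Agent.R586.LRC1
import Pool.Agent.R30.LRPT

/-!
# Entrywise low-rank approximation is `∃ℝ`-complete for `p = 0` and `p = 1`

Sketch of the hardness proof. A system of constraints `x = c`, `x + y = 2 z`, `x y = z` is encoded
by a matrix with known and unknown entries: rows and columns are vectors of `ℝ³` with a `3 × 3`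
identity block of anchors, a row `(x, 1, 0)` is orthogonal to a column `(1, -x, 0)`, and so on; the
known entries can be completed to a matrix of rank `3` if and only if the system is satisfiable.

For `p = 0` every row and every column is replaced by `T` copies, and the block of an unknown entry
is filled with the Cauchy matrix `1 / (a + b + 1)`. All its `4 × 4` minors are nonzero, so a matrix
of rank `3` can agree with it only in `O(T ^ (7 / 4))` positions. Hence a matrix of rank `3` with at
most `u T ^ 2` changes (`u` blocks are unknown) changes fewer than `T ^ 2` entries of the known blocks,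
and there is a choice of one copy of each row and of each column without any change.

For `p = 1` an unknown entry is replaced by `N` times a balanced Hadamard matrix of order `m`. A
matrix of rank `3` gains at most `O(√m)` times the spread of the copies from these masks, while the
known blocks charge `m` times the spread. The anchors have large weights (realized by scaling rows
and columns). The constraints form a straight-line program whose last value is
`δ - (sum of squares of the errors)` with `δ` doubly exponentially small, computed by repeated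
squaring; this value is rewarded with a small weight. An approximate solution can be repaired since
the program is Lipschitz with an exponential constant, and the gap theorem for systems of polynomial
constraints finishes the proof.
-/

namespace Pool.Agent.Results.MP_d82c50_lc.LowRankApproximationComplete

open Pool.Agent.NPC Pool.Agent.NPC.ER Pool.Agent.NPC.R537LR

/-- The problems `LRA₀` and `LRA₁` are `∃ℝ`-complete under polynomial-time many-one reductions,
and they remain so if the rank bound is fixed to be `3`. -/
theorem result : (ERComplete (lang LRA0) ∧ ERComplete (lang LRA1)) ∧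
    ERComplete (lang fun I : RMat × ℚ => LRA0 (I.1, 3, I.2)) ∧
    ERComplete (lang fun I : RMat × ℚ => LRA1 (I.1, 3, I.2)) := by
  have hPB : S_PB := Pool.Agent.R441.LRPB.t_PB
  have hPC : S_PC := Pool.Agent.NPC.R91LRPC.t_PC
  have hP0 : S_P0 := Pool.Agent.NPC.R619LRP0.t_P0 hPB hPC
  have hP1 : S_P1 := t_P1 hPB hPC
  have hLR : S_LR := Pool.Agent.R818.LRLR.t_LR
  have hSUM : S_SUM := Pool.Agent.R567.LRSUM.t_SUM
  have hC0 : S_C0 := Pool.Agent.R961.LRC0.t_C0 t_EXA
    (Pool.Agent.R569.LRBL0.t_BL0 t_CAU Pool.Agent.R12.LRKST.t_KST) hLR hSUM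
    Pool.Agent.R92.LRGC.t_GC
  have h1 := asm1 t_PT t_FF t_HAD hLR hSUM t_C1 t_SRC1 t_SRC2 t_SLP t_REP t_YESC t_YES t_NOA
    Pool.Agent.R777.LRNOB1.t_NOB1 t_NOB2 Pool.Agent.R237.LRNCD.t_NOC
    Pool.Agent.R237.LRNCD.t_NOD t_NOE Pool.Agent.R737.t_NOF Pool.Agent.R827.LRNOG.t_NOG
  exact ⟨⟨⟨t_MEM0, hard0 hP0 hC0⟩, ⟨t_MEM1, hard1 hP1 h1⟩⟩,
    ⟨mem0' t_MEM0, hard0' hP0 hC0⟩, ⟨mem1' t_MEM1, hard1' hP1 h1⟩⟩

end Pool.Agent.Results.MP_d82c50_lc.LowRankApproximationComplete
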